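import Pool.Agent.H423R2.RZL.SP2
import Pool.Agent.H355R3.RZ7_SP3

set_option autoImplicit false

/-!
MP_aaa0df_nt, small split primes in imaginary quadratic fields. For all `A > 1` and `ε > 0` all but
`O(X^{1/A+ε})` of the negative fundamental discriminants `d ≥ -X` have at least
`(log |d|)^{(A-1)/2}` split primes `p < (log |d|)^A`. The proof uses Heath-Brown's large sieve for
real characters (proved in the imported files). Project RZ: helpers 306, 640, 58, 355, 621, 139,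
348, 375, 413, 648, 268, 423.
-/

namespace Pool.Agent.Results.MP_aaa0df_nt.AlmostAllSplitPrimes

theorem result (A ε : ℝ) (hA : 1 < A) (hε : 0 < ε) : ∃ C : ℝ, ∀ X : ℕ, 1 ≤ X →
    (({d : ℤ | d < 0 ∧ -(X : ℤ) ≤ d ∧
      ((d % 4 = 1 ∧ Squarefree d) ∨
        (∃ m : ℤ, d = 4 * m ∧ (m % 4 = 2 ∨ m % 4 = 3) ∧ Squarefree m)) ∧
      ((Set.ncard {p : ℕ | p.Prime ∧ (p : ℝ) < Real.log (|(d : ℝ)|) ^ A ∧ ¬ ((p : ℤ) ∣ d) ∧
        ∃ x : ℤ, (4 * (p : ℤ)) ∣ x ^ 2 - d} : ℝ) <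
          Real.log (|(d : ℝ)|) ^ ((A - 1) / 2))}).ncard : ℝ) ≤
      C * (X : ℝ) ^ (1 / A + ε) := by
  obtain ⟨C, -, h⟩ := Pool.Agent.H355R3.RZ7SP3.SP3
    (fun ε hε => Pool.Agent.H423R2.RZL.SP2n.SP2 ε hε) A ε hA hε
  exact ⟨C, h⟩

end Pool.Agent.Results.MP_aaa0df_nt.AlmostAllSplitPrimes
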