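import Pool.Agent.H471R4.SPF.PER
import Pool.Agent.H471R4.SPF.DIF
import Pool.Agent.H471R4.SPF.SPL
import Pool.Agent.H471R4.SPF.RSM
import Pool.Agent.H471R4.SPF.CNS
import Pool.Agent.H471R4.SPF.FNS

set_option autoImplicit false

/-! Split primes below `|d| ^ δ` in imaginary quadratic fields: at most `C log X` negative
fundamental discriminants `|d| ≤ X` have fewer than `|d| ^ (δ / 16)` of them. -/

namespace Pool.Agent.Results.MP_aaa0df_nt.SparseExceptions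

/-- `d` is the discriminant of an imaginary quadratic field -/
def IsDisc (d : ℤ) : Prop :=
  d < 0 ∧ ((d % 4 = 1 ∧ Squarefree d) ∨
    (∃ m : ℤ, d = 4 * m ∧ (m % 4 = 2 ∨ m % 4 = 3) ∧ Squarefree m))

/-- the primes `p < t` which split in `ℚ(√d)`: `p` does not divide `d` and `d` is a square
modulo `4 p` -/
def splitPrimes (d : ℤ) (t : ℝ) : Set ℕ :=
  {p : ℕ | p.Prime ∧ (p : ℝ) < t ∧ ¬ ((p : ℤ) ∣ d) ∧ ∃ x : ℤ, (4 * (p : ℤ)) ∣ x ^ 2 - d}

/-- the discriminants `|d| ≤ X` with fewer than `|d| ^ (δ / 16)` split primes below `|d| ^ δ` -/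
def Exceptions (δ : ℝ) (X : ℕ) : Set ℤ :=
  {d : ℤ | IsDisc d ∧ |d| ≤ X ∧
    ((splitPrimes d (|(d : ℝ)| ^ δ)).ncard : ℝ) < |(d : ℝ)| ^ (δ / 16)}

/-- For every `δ` in `(0, 1]` there is `C` such that for all `X ≥ 2` at most `C log X` negative
fundamental discriminants `|d| ≤ X` have fewer than `|d| ^ (δ / 16)` split primes `p < |d| ^ δ`. -/
theorem result (δ : ℝ) (hδ : 0 < δ) (hδ1 : δ ≤ 1) : ∃ C : ℝ, ∀ X : ℕ, 2 ≤ X →
    (Exceptions δ X).Finite ∧ ((Exceptions δ X).ncard : ℝ) ≤ C * Real.log X := by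
  have hfns : Pool.Agent.H471R4.SP.FNS :=
    Pool.Agent.H471R4.SP.fns (Pool.Agent.H471R4.SP.cns Pool.Agent.H471R4.SP.per
      Pool.Agent.H471R4.SP.dif Pool.Agent.H471R4.SP.rsm) Pool.Agent.H471R4.SP.spl
  obtain ⟨C, hC⟩ := hfns δ hδ hδ1
  refine ⟨C, fun X hX => ?_⟩
  have hf : (Exceptions δ X).Finite :=
    (Set.finite_Icc (-(X : ℤ)) X).subset fun d hd => by
      have := hd.2.1
      rw [abs_le] at this
      exact this
  refine ⟨hf, ?_⟩
  rw [Set.ncard_eq_toFinset_card _ hf]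
  refine hC X hX hf.toFinset fun d hd => ?_
  rw [Set.Finite.mem_toFinset] at hd
  exact hd

end Pool.Agent.Results.MP_aaa0df_nt.SparseExceptions
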